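import Pool.Agent.LE.StmtsQZ

/-!
# Squad LQZ, UPE: the part of the second moment
-/

set_option autoImplicit false
set_option linter.unusedSectionVars false

open MeasureTheory ProbabilityTheory Function Filter

open scoped ENNReal BigOperators Topology NNReal ComplexOrder Matrix

noncomputable section

namespace Pool.Agent.LE.QZ.H72

open Pool.Agent.Anderson hiding box mem_box card_box
open Pool.Agent.Loc Pool.Agent.Mob Pool.Agent.Helper54.Bal
  Pool.Agent.Helper96.EXP Pool.Agent.BED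
open Pool.Agent.LE.MN Pool.Agent.LE.CL Pool.Agent.LE.IR Pool.Agent.LE.QD Pool.Agent.LE.QF

section Mat

variable {X : Type} [Fintype X] [DecidableEq X]

/-- the quadratic form as a double sum -/
theorem qf_eq (A : Matrix X X ℝ) (f : X → ℝ) : qf A f = ∑ a, ∑ b, f a * A a b * f b := by
  unfold QF.qf
  refine Finset.sum_congr rfl fun a _ => ?_
  rw [Matrix.mulVec, dotProduct, Finset.mul_sum]
  exact Finset.sum_congr rfl fun b _ => by ring

theorem qf_smul (c : ℝ) (A : Matrix X X ℝ) (f : X → ℝ) : qf (c • A) f = c * qf A f := by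
  rw [qf_eq, qf_eq, Finset.mul_sum]
  refine Finset.sum_congr rfl fun a _ => ?_
  rw [Finset.mul_sum]
  refine Finset.sum_congr rfl fun b _ => ?_
  rw [Matrix.smul_apply, smul_eq_mul]
  ring

theorem qf_Dl {K : Matrix X X ℝ} (hK : ∀ a b, K a b = K b a) (f : X → ℝ) :
    2 * qf (Dl K) f = ∑ a, ∑ b, K a b * (f a - f b) ^ 2 := by
  have h1 : qf (Dl K) f = ∑ a, ∑ b, K a b * f a ^ 2 - ∑ a, ∑ b, K a b * (f a * f b) := by
    rw [qf_eq, ← Finset.sum_sub_distrib]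
    refine Finset.sum_congr rfl fun a _ => ?_
    unfold Dl
    have h2 : ∀ b, f a * (Matrix.diagonal (fun a => ∑ b, K a b) - K) a b * f b =
        f a * Matrix.diagonal (fun a => ∑ b, K a b) a b * f b - K a b * (f a * f b) := by
      intro b
      rw [Matrix.sub_apply]
      ring
    simp only [h2]
    rw [Finset.sum_sub_distrib]
    congr 1
    rw [Finset.sum_eq_single a]
    · rw [Matrix.diagonal_apply_eq, Finset.mul_sum, Finset.sum_mul]
      exact Finset.sum_congr rfl fun b _ => by ring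
    · intro b _ hb
      rw [Matrix.diagonal_apply_ne _ (Ne.symm hb), mul_zero, zero_mul]
    · intro h
      exact absurd (Finset.mem_univ a) h
  have h2 : ∑ a, ∑ b, K a b * (f a - f b) ^ 2 = ∑ a, ∑ b, K a b * f a ^ 2 +
      ∑ a, ∑ b, K a b * f b ^ 2 - 2 * ∑ a, ∑ b, K a b * (f a * f b) := by
    rw [Finset.mul_sum, ← Finset.sum_add_distrib, ← Finset.sum_sub_distrib]
    refine Finset.sum_congr rfl fun a _ => ?_
    rw [Finset.mul_sum, ← Finset.sum_add_distrib, ← Finset.sum_sub_distrib]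
    exact Finset.sum_congr rfl fun b _ => by ring
  have h3 : ∑ a, ∑ b, K a b * f b ^ 2 = ∑ a, ∑ b, K a b * f a ^ 2 := by
    rw [Finset.sum_comm]
    exact Finset.sum_congr rfl fun a _ => Finset.sum_congr rfl fun b _ => by rw [hK b a]
  rw [h2, h3, h1]
  ring

theorem qf_Dl_nonneg {K : Matrix X X ℝ} (hK : ∀ a b, K a b = K b a) (h0 : ∀ a b, 0 ≤ K a b)
    (f : X → ℝ) : 0 ≤ qf (Dl K) f := by
  have h1 := qf_Dl hK f
  have h2 : 0 ≤ ∑ a, ∑ b, K a b * (f a - f b) ^ 2 :=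
    Finset.sum_nonneg fun a _ => Finset.sum_nonneg fun b _ => mul_nonneg (h0 a b) (sq_nonneg _)
  linarith

theorem KK_symm {G : Matrix X X ℂ} (h : ∀ a b, G a b = G b a) (a b : X) :
    KK G a b = KK G b a := by
  unfold KK
  rw [h a b]

end Mat

section Jet

variable {ι : Type} [Fintype ι] [DecidableEq ι]

/-- a constant times a jet -/
theorem cmul (jal : JalStmt) {q : ℝ × (ι → ℝ)} {F : ℝ × (ι → ℝ) → ℝ} {v l : ℝ} {g : ι → ℝ}
    (h : HJ F q v g l) (k : ℝ) : HJ (fun r => k * F r) q (k * v) (fun c => k * g c) (k * l) := by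
  have h1 := ((jal ι ℝ q).2.2.1 (fun _ => k) F k v 0 l (fun _ => 0) g ((jal ι ℝ q).1 k) h).2.2
  have e1 : (fun c => k * g c + 0 * v) = fun c => k * g c := by
    funext c
    ring
  have e2 : k * l + 0 * v + ∑ c, 0 * g c = k * l := by
    simp
  rw [e1, e2] at h1
  exact h1

/-- the jet of the quadratic form -/
theorem qfj {X : Type} [Fintype X] [DecidableEq X] (jal : JalStmt) {q : ℝ × (ι → ℝ)}
    {F : ℝ × (ι → ℝ) → Matrix X X ℝ} {v l : Matrix X X ℝ} {g : ι → Matrix X X ℝ}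
    (h : HM F q v g l) (f : X → ℝ) :
    HJ (fun r => qf (F r) f) q (qf v f) (fun c => qf (g c) f) (qf l f) := by
  have hs := (jal ι ℝ q).2.2.2.2.2.1
  have h1 : ∀ a ∈ (Finset.univ : Finset X), HJ (fun r => ∑ b, (f a * f b) * F r a b) q
      (∑ b, (f a * f b) * v a b) (fun c => ∑ b, (f a * f b) * g c a b)
      (∑ b, (f a * f b) * l a b) := by
    intro a _
    exact hs X Finset.univ (fun b r => (f a * f b) * F r a b) (fun b => (f a * f b) * v a b)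
      (fun b => (f a * f b) * l a b) (fun b c => (f a * f b) * g c a b)
      (fun b _ => cmul jal (h a b) (f a * f b))
  have h2 := hs X Finset.univ (fun a r => ∑ b, (f a * f b) * F r a b)
    (fun a => ∑ b, (f a * f b) * v a b) (fun a => ∑ b, (f a * f b) * l a b)
    (fun a c => ∑ b, (f a * f b) * g c a b) h1
  have e : ∀ A : Matrix X X ℝ, qf A f = ∑ a, ∑ b, (f a * f b) * A a b := by
    intro A
    rw [qf_eq]
    exact Finset.sum_congr rfl fun a _ => Finset.sum_congr rfl fun b _ => by ring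
  simp only [e]
  exact h2

end Jet

/-- UPE -/
theorem upe (jtb : JtbStmt) (jal : JalStmt) (wfu : WfuStmt) (rsj : RsjStmt) : UpeStmt := by
  intro c₁ C₁ C₀ hc₁ hC₁ hC₀
  obtain ⟨Cw, hCw, hwfu⟩ := wfu C₀ hC₀
  have hCw0 : 0 < Cw := by linarith
  have hC₀0 : 0 < C₀ := by linarith
  refine ⟨Cw * C₀, by nlinarith, ?_⟩
  intro d M _ D c₀ κ τ q had hq0 hqT hgoo
  obtain ⟨hκ1, hτ1, hηκ, hκw, hτ0, hτκ, hκτ⟩ := hgoo.hκ
  obtain ⟨hT0, hη0, hw1, hηT⟩ := had.hT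
  have hκ0 : 0 < κ := lt_of_lt_of_le hη0 hηκ
  have hkp : 0 < D.kp q.1 := by rw [← hκ1]; exact hκ0
  obtain ⟨hJ, -⟩ := rsj d M D c₁ C₁ c₀ q hc₁ had hkp
  rw [← hτ1] at hJ
  have hs := hJ.hs
  obtain ⟨ht1, ht2, ht3⟩ := hJ.ht
  -- the jet of the Laplacian
  have hX : HM D.X q (τ • Dl (KK (D.G q))) (fun c => τ • Dl (dK (D.G q) c))
      (τ • Dl (KK (D.G q) * KK (D.G q) + EK (D.G q) (D.mu q)) - Dl (KK (D.G q))) :=
    (jtb (Tor d M) q D.G D.ta (D.G q) D.m τ (D.mu q) hJ rfl).2.2.2.2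
  obtain ⟨V, hV⟩ : ∃ V, V = τ • Dl (KK (D.G q)) := ⟨_, rfl⟩
  obtain ⟨L, hL⟩ : ∃ L, L =
    τ • Dl (KK (D.G q) * KK (D.G q) + EK (D.G q) (D.mu q)) - Dl (KK (D.G q)) := ⟨_, rfl⟩
  obtain ⟨g, hg⟩ : ∃ g, g = fun c => τ • Dl (dK (D.G q) c) := ⟨_, rfl⟩
  rw [← hV, ← hL, ← hg] at hX
  have hqv : ∀ f, 0 ≤ qf V f := by
    intro f
    rw [hV, qf_smul]
    refine mul_nonneg hτ0.le (qf_Dl_nonneg (KK_symm hs) (fun a b => ?_) f)
    unfold KK
    positivity
  have hw : ∀ f, qf L f ≤ (1 + Cw * D.δ) * qf V f / τ := by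
    intro f
    rw [hL, hV]
    exact hwfu (Tor d M) (D.G q) (D.mu q) D.nr κ τ D.δ D.N hgoo.hG f
  -- the jet of `U6`
  obtain ⟨hcst, -, halg, -, -, hsum, htime, -⟩ := jal (Tor d M) ℝ q
  have hta : HJ (fun r : ℝ × (Tor d M → ℝ) => D.ta r.1) q τ (fun _ => 0) (-1) := by
    have h1 := htime D.ta ht1
    rw [ht2, ht3] at h1
    exact h1
  obtain ⟨S, hS⟩ : ∃ S, S = qf V D.f₁ + qf V D.f₂ := ⟨_, rfl⟩
  have hS0 : 0 ≤ S := by
    rw [hS]
    exact add_nonneg (hqv _) (hqv _)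
  have hsm := (halg (fun r => qf (D.X r) D.f₁) (fun r => qf (D.X r) D.f₂) (qf V D.f₁)
    (qf V D.f₂) (qf L D.f₁) (qf L D.f₂) (fun c => qf (g c) D.f₁) (fun c => qf (g c) D.f₂)
    (qfj jal hX D.f₁) (qfj jal hX D.f₂)).1
  rw [← hS] at hsm
  have hpr := (halg (fun r => D.ta r.1) (fun r => qf (D.X r) D.f₁ + qf (D.X r) D.f₂) τ S (-1)
    (qf L D.f₁ + qf L D.f₂) (fun _ => 0) (fun c => qf (g c) D.f₁ + qf (g c) D.f₂) hta hsm).2.2
  have hU := cmul jal hpr D.lam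
  have hU6 : (fun r : ℝ × (Tor d M → ℝ) => D.lam * (D.ta r.1 * (qf (D.X r) D.f₁ +
      qf (D.X r) D.f₂))) = D.U6 := rfl
  rw [hU6] at hU
  refine ⟨hU.sm, ?_⟩
  rw [hU.ge, hU.vl]
  have e1 : ∑ c : Tor d M, (0 : ℝ) * (qf (g c) D.f₁ + qf (g c) D.f₂) = 0 := by simp
  rw [e1, add_zero]
  -- the drift
  have hdr : τ * (qf L D.f₁ + qf L D.f₂) + -1 * S ≤ Cw * D.δ * S := by
    have h1 := hw D.f₁
    have h2 := hw D.f₂
    have h3 : τ * (qf L D.f₁ + qf L D.f₂) ≤ (1 + Cw * D.δ) * S := by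
      have h4 : qf L D.f₁ + qf L D.f₂ ≤ (1 + Cw * D.δ) * S / τ := by
        have h5 : (1 + Cw * D.δ) * S / τ =
            (1 + Cw * D.δ) * qf V D.f₁ / τ + (1 + Cw * D.δ) * qf V D.f₂ / τ := by
          rw [hS]
          ring
        linarith
      rw [le_div_iff₀ hτ0] at h4
      linarith
    linarith
  -- numbers
  have hδ0 : 0 < D.δ := had.hδ.1
  obtain ⟨he1, he2, he3⟩ := had.he
  obtain ⟨hj2, hp2, hL0, hN1, hπ0⟩ := had.hj
  have hw0 : 0 < D.w := lt_of_lt_of_le hκ0 hκw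
  have hp1 : (1 : ℝ) ≤ D.p := by
    have : 1 ≤ D.p := by omega
    exact_mod_cast this
  have haN : D.δ ≤ D.aN := by
    unfold Dat.aN
    have hch : 0 ≤ D.ch := by
      unfold Dat.ch
      positivity
    have h1 : 0 ≤ (D.j : ℝ) * (D.h ^ 2 * (D.δ + Real.sqrt D.ch / D.δ)) := by
      positivity
    have h2 : 0 ≤ (D.j : ℝ) ^ 2 * (D.h ^ 4 * (D.ch / D.δ ^ 2) + D.N * D.w + D.δ +
        1 / Real.sqrt D.L₀ + (D.e₀ - 1)) := by
      have h3 : 0 ≤ D.e₀ - 1 := by linarith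
      positivity
    have h3 : 0 ≤ (D.p : ℝ) ^ 2 * (D.N * D.w + D.δ ^ 2 + D.π₀) := by positivity
    have h4 : D.δ ≤ D.p * D.δ := by nlinarith
    linarith
  have hlam : 0 ≤ D.lam := had.h6.1
  have hLS : 0 ≤ D.lam * S := mul_nonneg hlam hS0
  have f1 : D.lam * (τ * (qf L D.f₁ + qf L D.f₂) + -1 * S) ≤ Cw * D.δ * (D.lam * S) := by
    have := mul_le_mul_of_nonneg_left hdr hlam
    linarith
  refine f1.trans ?_
  have f2 : Cw * C₀ * D.aN / κ * (D.lam * (τ * S)) = (Cw * D.aN) * (C₀ * τ / κ) * (D.lam * S) := by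
    ring
  rw [f2]
  refine mul_le_mul_of_nonneg_right ?_ hLS
  have f3 : 1 ≤ C₀ * τ / κ := by
    rw [le_div_iff₀ hκ0, one_mul]
    exact hκτ
  have f4 : Cw * D.δ ≤ Cw * D.aN := mul_le_mul_of_nonneg_left haN hCw0.le
  have f5 : 0 ≤ Cw * D.aN := by
    have : 0 ≤ D.aN := hδ0.le.trans haN
    positivity
  nlinarith

end Pool.Agent.LE.QZ.H72
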